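import Pool.Agent.Helper7.KT.St

/-! Project KT (MP_5176ab_co), module PNB. -/

set_option autoImplicit false

namespace Pool.Agent.Helper48.KT

open Finset SimpleGraph Filter Topology
open EX Pool.Agent.Helper7.KT

open scoped Classical

theorem hPNB (hPNA : StPNA) (hEMT : StEMT) : StPNB := by
  intro U _ G t hG M D ε hε
  obtain ⟨ζ, hζ, hev⟩ := hPNA (Fin 3 ⊕ Fin 3 × Fin t) M ε hε
  set m : ℕ := Fintype.card (Fin 3 ⊕ Fin 3 × Fin t) with hm
  set B : ℕ := t * ((D * D + D) + 1) + (m + (m + M) * D) with hB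
  obtain ⟨n1, hn1⟩ := exists_nat_ge ((B : ℝ) / ζ)
  filter_upwards [hev, eventually_ge_atTop (n1 + 1)] with n hn hn0
  intro H hH C hC P hP
  by_contra hlt
  push Not at hlt
  obtain ⟨A', u, hui, huC, hZ⟩ := hn C hC (aa (Γr 2 G H) H C) _ hlt.le
  set Z0 : Finset (Fin n) := (univ.filter fun v => v ∉ C ∧ ∀ i, (u i, v) ∈
    ((univ : Finset (Fin n × Fin n)).filter fun q =>
        3 ≤ (aa (Γr 2 G H) H C q.1 q.2).card + (pp (Γr 2 G H) H P q.1 q.2).card) ∧
          aa (Γr 2 G H) H C (u i) v ∩ C = A') with hZ0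
  have hnR : (n1 : ℝ) + 1 ≤ n := by exact_mod_cast hn0
  have hBn : (B : ℝ) < ζ * n := by
    have h1 : (B : ℝ) ≤ n1 * ζ := by
      rwa [div_le_iff₀ hζ] at hn1
    nlinarith
  have hZB : B < Z0.card := by
    have h1 : (B : ℝ) < Z0.card := lt_of_lt_of_le hBn hZ
    exact_mod_cast h1
  -- facts about the elements of Z0
  have hmem : ∀ v ∈ Z0, v ∉ C ∧ (∀ i, aa (Γr 2 G H) H C (u i) v = A') ∧
      ∀ i, 3 ≤ A'.card + (pp (Γr 2 G H) H P (u i) v).card := by
    intro v hv
    rw [hZ0, mem_filter] at hv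
    have h1 : ∀ i, aa (Γr 2 G H) H C (u i) v = A' := by
      intro i
      rw [← (hv.2.2 i).2]
      exact (inter_eq_left.2 (filter_subset _ _)).symm
    refine ⟨hv.2.1, h1, fun i => ?_⟩
    have h2 := (mem_filter.1 (hv.2.2 i).1).2
    rw [h1 i] at h2
    exact h2
  have hne : Z0.Nonempty := card_pos.1 (by omega)
  obtain ⟨v0, hv0⟩ := hne
  have hAC : A' ⊆ C := by
    rw [← (hmem v0 hv0).2.1 (Sum.inl 0)]
    exact filter_subset _ _
  -- the partners
  have hg : ∀ v ∈ Z0, ∃ g : {i : Fin 3 // ¬ i.val < A'.card} → Fin n, Function.Injective g ∧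
      ∀ i, g i ∈ pp (Γr 2 G H) H P (u (Sum.inl i.1)) v := by
    intro v hv
    rw [← Finset.all_card_le_biUnion_card_iff_exists_injective]
    intro s
    rcases s.eq_empty_or_nonempty with rfl | ⟨i0, hi0⟩
    · simp
    · have h1 : s.card ≤ 3 - A'.card := by
        refine (card_le_univ s).trans ?_
        have h2 : Fintype.card {i : Fin 3 // ¬ i.val < A'.card} =
            (univ.filter fun i : Fin 3 => ¬ i.val < A'.card).card :=
          Fintype.card_subtype _
        rw [h2]
        have h3 : (univ.filter fun i : Fin 3 => ¬ i.val < A'.card).card ≤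
            ((range 3).filter fun i => A'.card ≤ i).card := by
          refine card_le_card_of_injOn (fun i => i.val) ?_ ?_
          · intro i hi
            simp only [coe_filter, mem_univ, true_and, Set.mem_ofPred_eq, not_lt] at hi
            simp only [coe_filter, mem_range, Set.mem_ofPred_eq]
            exact ⟨i.2, hi⟩
          · intro i _ j _ h
            exact Fin.ext h
        refine h3.trans ?_
        have h4 : ((range 3).filter fun i => A'.card ≤ i) = Finset.Ico A'.card 3 := by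
          ext i
          simp only [mem_filter, mem_range, mem_Ico]
          tauto
        rw [h4, Nat.card_Ico]
      have h5 := (hmem v hv).2.2 (Sum.inl i0.1)
      have h6 : (pp (Γr 2 G H) H P (u (Sum.inl i0.1)) v).card ≤
          (s.biUnion fun i => pp (Γr 2 G H) H P (u (Sum.inl i.1)) v).card :=
        card_le_card (subset_biUnion_of_mem (fun i : {i : Fin 3 // ¬ i.val < A'.card} =>
          pp (Γr 2 G H) H P (u (Sum.inl i.1)) v) hi0)
      omega
  choose! g hgi hgp using hg
  have hgP : ∀ v ∈ Z0, ∀ i, P (g v i) v := by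
    intro v hv i
    have h1 := hgp v hv i
    simp only [pp, mem_filter, mem_univ, true_and] at h1
    exact h1.1
  have hgT : ∀ v ∈ Z0, ∀ i, T3 H (u (Sum.inl i.1)) v (g v i) := by
    intro v hv i
    have h1 := hgp v hv i
    simp only [pp, mem_filter, mem_univ, true_and] at h1
    exact h1.2.1
  -- removing bad vertices
  have hPD : ∀ v, (univ.filter fun g => P v g).card ≤ D := by
    intro v
    refine (card_le_card ?_).trans (hP.2 v)
    intro w hw
    simp only [mem_filter, mem_univ, true_and] at hw ⊢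
    exact hP.1 _ _ hw
  set bad : Finset (Fin n) := univ.image u ∪
    ((univ.image u ∪ C).biUnion fun g => univ.filter fun v => P g v) with hbad
  have hcu : (univ.image u).card ≤ m := card_image_le.trans (by rw [hm, card_univ])
  have hbc : bad.card ≤ m + (m + M) * D := by
    rw [hbad]
    refine (card_union_le _ _).trans (Nat.add_le_add hcu ?_)
    refine card_biUnion_le.trans ?_
    refine (Finset.sum_le_card_nsmul _ _ D fun x _ => hPD x).trans ?_
    rw [smul_eq_mul]
    exact Nat.mul_le_mul_right _ ((card_union_le _ _).trans (Nat.add_le_add hcu hC))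
  set Z1 : Finset (Fin n) := Z0 \ bad with hZ1
  have hZ1c : t * ((D * D + D) + 1) ≤ Z1.card := by
    have h3 := card_le_card_sdiff_add_card (s := Z0) (t := bad)
    rw [← hZ1] at h3
    omega
  obtain ⟨Z', hZ'1, hZ'c, hZ'i⟩ := FB.indep (fun v v' : Fin n => (∃ g, P g v ∧ P g v') ∨ P v v')
    (by
      rintro v v' (⟨g, h1, h2⟩ | h)
      · exact Or.inl ⟨g, h2, h1⟩
      · exact Or.inr (hP.1 _ _ h)) (D * D + D) t Z1 (by
      intro y _
      refine ⟨((univ.filter fun g => P g y).biUnion fun g => univ.filter fun v' => P g v') ∪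
        univ.filter (fun v' => P y v'), ?_, ?_⟩
      · refine (card_union_le _ _).trans (Nat.add_le_add ?_ (hPD y))
        refine card_biUnion_le.trans ?_
        refine (Finset.sum_le_card_nsmul _ _ D fun x _ => hPD x).trans ?_
        rw [smul_eq_mul]
        exact Nat.mul_le_mul_right _ (hP.2 y)
      · rintro y' _ _ (⟨g, h1, h2⟩ | h)
        · refine mem_union_left _ (mem_biUnion.2 ⟨g, ?_, ?_⟩)
          · simpa using h1
          · simpa using h2
        · exact mem_union_right _ (by simpa using h)) hZ1c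
  have hZ'0 : ∀ v ∈ Z', v ∈ Z0 ∧ v ∉ bad := fun v hv => by
    have := hZ'1 hv
    rwa [hZ1, Finset.mem_sdiff] at this
  -- the embedding
  set v : Fin t → Fin n := fun j => Z'.orderEmbOfFin hZ'c j with hv
  have hvm : ∀ j, v j ∈ Z' := fun j => Z'.orderEmbOfFin_mem hZ'c j
  have hvi : Function.Injective v := (Z'.orderEmbOfFin hZ'c).injective
  have hvu : ∀ j i, v j ≠ u i := by
    intro j i h
    refine (hZ'0 _ (hvm j)).2 (mem_union_left _ (mem_image.2 ⟨i, mem_univ _, h.symm⟩))
  have hPu : ∀ j i, ¬ P (u i) (v j) := by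
    intro j i h
    refine (hZ'0 _ (hvm j)).2 (mem_union_right _ (mem_biUnion.2 ⟨u i, ?_, by simpa using h⟩))
    exact mem_union_left _ (mem_image.2 ⟨i, mem_univ _, rfl⟩)
  have hPC : ∀ j, ∀ c ∈ C, ¬ P c (v j) := by
    intro j c hc h
    exact (hZ'0 _ (hvm j)).2 (mem_union_right _ (mem_biUnion.2
      ⟨c, mem_union_right _ hc, by simpa using h⟩))
  set e := A'.orderEmbOfFin rfl with he
  have hem : ∀ i, e i ∈ C := fun i => hAC (A'.orderEmbOfFin_mem rfl i)
  set a : Fin 3 → Fin n := fun i => if h : i.val < A'.card then e ⟨i.val, h⟩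
    else u (Sum.inl i) with ha
  set χ : Fin 3 → Fin t → Fin n := fun i j => if h : i.val < A'.card then u (Sum.inr (i, j))
    else g (v j) ⟨i, h⟩ with hχ
  have ha1 : ∀ i (h : i.val < A'.card), a i = e ⟨i.val, h⟩ := fun i h => by
    rw [ha]; simp only [h, dif_pos]
  have ha2 : ∀ i, ¬ i.val < A'.card → a i = u (Sum.inl i) := fun i h => by
    rw [ha]; simp only [h, dif_neg, not_false_eq_true]
  have hχ1 : ∀ i j, i.val < A'.card → χ i j = u (Sum.inr (i, j)) := fun i j h => by
    rw [hχ]; simp only [h, dif_pos]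
  have hχ2 : ∀ i j (h : ¬ i.val < A'.card), χ i j = g (v j) ⟨i, h⟩ := fun i j h => by
    rw [hχ]; simp only [h, dif_neg, not_false_eq_true]
  refine hH.2 (hEMT U G 3 t hG (Fin n) H (fun E hE => hH.1 E hE) a v ?_ hvi ?_
    (fun _ _ => True) χ ?_ ?_ ?_ ?_ ?_)
  · intro i i' h
    by_cases h1 : i.val < A'.card <;> by_cases h2 : i'.val < A'.card
    · rw [ha1 i h1, ha1 i' h2] at h
      have h3 := e.injective h
      rw [Fin.mk.injEq] at h3
      exact Fin.ext h3
    · rw [ha1 i h1, ha2 i' h2] at h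
      exact absurd (h ▸ hem _) (huC _)
    · rw [ha2 i h1, ha1 i' h2] at h
      exact absurd (h.symm ▸ hem _) (huC _)
    · rw [ha2 i h1, ha2 i' h2] at h
      exact Sum.inl_injective (hui h)
  · intro i j h
    by_cases h1 : i.val < A'.card
    · rw [ha1 i h1] at h
      exact (hmem _ (hZ'0 _ (hvm j)).1).1 (h ▸ hem _)
    · rw [ha2 i h1] at h
      exact hvu j _ h.symm
  · intro i j _
    by_cases h1 : i.val < A'.card
    · rw [ha1 i h1, hχ1 i j h1]
      have h2 : e ⟨i.val, h1⟩ ∈ aa (Γr 2 G H) H C (u (Sum.inr (i, j))) (v j) := by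
        rw [(hmem _ (hZ'0 _ (hvm j)).1).2.1]
        exact A'.orderEmbOfFin_mem rfl _
      have h3 : T3 H (u (Sum.inr (i, j))) (v j) (e ⟨i.val, h1⟩) := (mem_filter.1 h2).2.1
      exact t3_rot _ _ _ _ (t3_swap _ _ _ _ (t3_rot _ _ _ _ h3))
    · rw [ha2 i h1, hχ2 i j h1]
      exact hgT _ (hZ'0 _ (hvm j)).1 ⟨i, h1⟩
  · intro i j i' j' _ _ h
    by_cases h1 : i.val < A'.card <;> by_cases h2 : i'.val < A'.card
    · rw [hχ1 i j h1, hχ1 i' j' h2] at h
      have h3 := Sum.inr_injective (hui h)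
      exact ⟨congrArg Prod.fst h3, congrArg Prod.snd h3⟩
    · rw [hχ1 i j h1, hχ2 i' j' h2] at h
      exact absurd (h ▸ hgP _ (hZ'0 _ (hvm j')).1 ⟨i', h2⟩) (hPu j' _)
    · rw [hχ2 i j h1, hχ1 i' j' h2] at h
      exact absurd (h ▸ hgP _ (hZ'0 _ (hvm j)).1 ⟨i, h1⟩) (hPu j _)
    · rw [hχ2 i j h1, hχ2 i' j' h2] at h
      have hjj : j = j' := by
        by_contra hj
        refine hZ'i _ (hvm j) _ (hvm j') (fun h4 => hj (hvi h4)) (Or.inl ⟨g (v j) ⟨i, h1⟩,
          hgP _ (hZ'0 _ (hvm j)).1 _, ?_⟩)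
        rw [h]
        exact hgP _ (hZ'0 _ (hvm j')).1 _
      subst hjj
      have h3 := hgi _ (hZ'0 _ (hvm j)).1 h
      rw [Subtype.mk.injEq] at h3
      exact ⟨h3, rfl⟩
  · intro i j i' _ h
    by_cases h1 : i.val < A'.card <;> by_cases h2 : i'.val < A'.card
    · rw [hχ1 i j h1, ha1 i' h2] at h
      exact huC _ (h.symm ▸ hem _)
    · rw [hχ1 i j h1, ha2 i' h2] at h
      exact absurd (hui h) (by simp)
    · rw [hχ2 i j h1, ha1 i' h2] at h
      exact hPC j _ (hem _) (h ▸ hgP _ (hZ'0 _ (hvm j)).1 _)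
    · rw [hχ2 i j h1, ha2 i' h2] at h
      exact hPu j _ (h ▸ hgP _ (hZ'0 _ (hvm j)).1 _)
  · intro i j j' _ h
    by_cases h1 : i.val < A'.card
    · rw [hχ1 i j h1] at h
      exact hvu j' _ h.symm
    · rw [hχ2 i j h1] at h
      by_cases hj : j = j'
      · subst hj
        exact (hgT _ (hZ'0 _ (hvm j)).1 ⟨i, h1⟩).2.2.1 h.symm
      · refine hZ'i _ (hvm j') _ (hvm j) (fun h4 => hj (hvi h4).symm) (Or.inr ?_)
        rw [← h]
        exact hgP _ (hZ'0 _ (hvm j)).1 _
  · intro i j h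
    exact absurd trivial h

end Pool.Agent.Helper48.KT
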